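import Pool.Agent.Helper7.SC.DP.Frames

set_option autoImplicit false

/-!
The probability that the active blocks avoid a set and are not too many.
-/

namespace Pool.Agent.Helper72.SC.DP

open Finset Pool.Agent.Helper7.SC.DP

/-- (PR) -/
theorem stPr : StPr := by
  classical
  intro m p hp hp2 hpm U
  have h1p : 0 < 1 - p := by linarith
  obtain ⟨V, hV⟩ : ∃ V : Finset (Fin m), V = Uᶜ := ⟨_, rfl⟩
  have hcard : #U + #V = m := by
    rw [hV, Finset.card_add_card_compl, Fintype.card_fin]
  have hset : (univ : Finset (Finset (Fin m))).filter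
      (fun β => Disjoint β U ∧ (#β : ℝ) ≤ 4 * p * m) =
      V.powerset.filter (fun β => (#β : ℝ) ≤ 4 * p * m) := by
    ext β
    rw [mem_filter, mem_filter, mem_powerset, hV, Finset.subset_compl_iff_disjoint_right]
    simp
  rw [hset]
  have hw : ∀ β ∈ V.powerset, pb p β = (1 - p) ^ #U * (p ^ #β * (1 - p) ^ (#V - #β)) := by
    intro β hβ
    have h1 := Finset.card_le_card (mem_powerset.1 hβ)
    have h2 : m - #β = #U + (#V - #β) := by omega
    unfold pb
    rw [h2, pow_add]
    ring
  have htot : ∑ β ∈ V.powerset, pb p β = (1 - p) ^ #U := by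
    rw [Finset.sum_congr rfl hw, ← Finset.mul_sum, Finset.sum_pow_mul_eq_add_pow]
    rw [show p + (1 - p) = 1 by ring, one_pow, mul_one]
  have htot2 : ∑ β ∈ V.powerset, pb p β * 2 ^ #β = (1 - p) ^ #U * (1 + p) ^ #V := by
    have h1 : ∀ β ∈ V.powerset, pb p β * 2 ^ #β =
        (1 - p) ^ #U * ((2 * p) ^ #β * (1 - p) ^ (#V - #β)) := by
      intro β hβ
      rw [hw β hβ, mul_pow]
      ring
    rw [Finset.sum_congr rfl h1, ← Finset.mul_sum, Finset.sum_pow_mul_eq_add_pow]
    rw [show 2 * p + (1 - p) = 1 + p by ring]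
  have hsplit := Finset.sum_filter_add_sum_filter_not V.powerset
    (fun β => (#β : ℝ) ≤ 4 * p * m) (fun β => pb p β)
  obtain ⟨E, hE⟩ : ∃ E : ℝ, E = Real.exp (-(4 * p * m * Real.log 2)) := ⟨_, rfl⟩
  have hE0 : 0 < E := by rw [hE]; exact Real.exp_pos _
  have hl2 : 0 < Real.log 2 := Real.log_pos (by norm_num)
  have hbad : ∑ β ∈ V.powerset.filter (fun β => ¬ (#β : ℝ) ≤ 4 * p * m), pb p β ≤
      1 / 2 * (1 - p) ^ #U := by
    have h1 : ∀ β ∈ V.powerset.filter (fun β => ¬ (#β : ℝ) ≤ 4 * p * m),
        pb p β ≤ pb p β * 2 ^ #β * E := by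
      intro β hβ
      obtain ⟨h2, h3⟩ := mem_filter.1 hβ
      rw [not_le] at h3
      have h4 : 0 ≤ pb p β := by unfold pb; positivity
      have h5 : (1 : ℝ) ≤ 2 ^ #β * E := by
        have h6 : ((2 : ℝ)) ^ #β = Real.exp (#β * Real.log 2) := by
          rw [mul_comm, Real.exp_mul, Real.exp_log (by norm_num), Real.rpow_natCast]
        rw [h6, hE, ← Real.exp_add]
        apply Real.one_le_exp
        nlinarith
      calc pb p β = pb p β * 1 := (mul_one _).symm
        _ ≤ pb p β * (2 ^ #β * E) := mul_le_mul_of_nonneg_left h5 h4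
        _ = _ := by ring
    have h2 : ∑ β ∈ V.powerset.filter (fun β => ¬ (#β : ℝ) ≤ 4 * p * m), pb p β ≤
        ∑ β ∈ V.powerset, pb p β * 2 ^ #β * E := by
      refine (Finset.sum_le_sum h1).trans ?_
      refine Finset.sum_le_sum_of_subset_of_nonneg (Finset.filter_subset _ _) ?_
      intro β _ _
      unfold pb
      positivity
    rw [← Finset.sum_mul, htot2] at h2
    refine h2.trans ?_
    have h3 : (1 + p) ^ #V ≤ Real.exp (p * m) := by
      have h4 : 1 + p ≤ Real.exp p := by
        have := Real.add_one_le_exp p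
        linarith
      calc (1 + p) ^ #V ≤ Real.exp p ^ #V := pow_le_pow_left₀ (by linarith) h4 _
        _ = Real.exp (#V * p) := (Real.exp_nat_mul _ _).symm
        _ ≤ Real.exp (p * m) := by
            apply Real.exp_le_exp.2
            have h5 : (#V : ℝ) ≤ m := by
              have : #V ≤ m := by omega
              exact_mod_cast this
            nlinarith
    have h4 : Real.exp (p * m) * E ≤ 1 / 2 := by
      rw [hE, ← Real.exp_add]
      have h5 : (1 : ℝ) / 2 = Real.exp (-Real.log 2) := by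
        rw [Real.exp_neg, Real.exp_log (by norm_num)]
        norm_num
      rw [h5]
      apply Real.exp_le_exp.2
      have h6 := Real.log_two_gt_d9
      have h7 : 0 ≤ (p * m - 1) * (4 * Real.log 2 - 1) :=
        mul_nonneg (by linarith) (by linarith)
      nlinarith
    have h5 : 0 ≤ (1 - p) ^ #U := by positivity
    calc (1 - p) ^ #U * (1 + p) ^ #V * E ≤ (1 - p) ^ #U * Real.exp (p * m) * E :=
          mul_le_mul_of_nonneg_right (mul_le_mul_of_nonneg_left h3 h5) hE0.le
      _ = (1 - p) ^ #U * (Real.exp (p * m) * E) := by ring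
      _ ≤ (1 - p) ^ #U * (1 / 2) := mul_le_mul_of_nonneg_left h4 h5
      _ = _ := by ring
  rw [htot] at hsplit
  linarith

end Pool.Agent.Helper72.SC.DP
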